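import Pool.Agent.Q28.BM.Main

/-!
# The symplectic Bogomolov-Miyaoka-Yau inequality and the case of equality

For a closed symplectic four-manifold `c₁² - 3c₂ = 3σ - e` is divisible by 4, and it decreases by 4
under a blow-up. So a counterexample to the inequality `c₁² ≤ 3c₂` becomes, after some blow-ups, one
with `c₁² = 3c₂ + 4`, and after one more blow-up a manifold with `c₁² = 3c₂` which is not minimal.
Hence the inequality, for any class of symplectic four-manifolds which is closed under blowing up and
down (for instance `b⁺ > 1`, or `b⁺ > 1` with a given fundamental group), is equivalent to: all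
members with `c₁² = 3c₂` are minimal; and to: no member has `c₁² = 3c₂ + 4`.
-/

universe u

namespace Pool.Agent.Results.MP_872606_gt.OneValueSuffices

open Pool.Agent.Q28.BM

/-- **The Bogomolov-Miyaoka-Yau inequality and the case of equality.** Let `T` be the closed
symplectic four-manifolds (`hT`: known facts) and let `P` be a property which `X` has if and only if
its blow-ups have it. Equivalent are:

1. `c₁² ≤ 3c₂` for all `X` with `P`;
2. `c₁² ≤ 3c₂` for all minimal `X` with `P`;
3. no `X` with `P` has `c₁² = 3c₂ + 4`;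
4. all `X` with `P` and `c₁² = 3c₂` are minimal.

In particular this holds for the property `b⁺ > 1` (Q1). -/
theorem result (T : Symplectic.{u}) (hT : T.Facts) :
    (∀ P : T.Mfd → Prop, (∀ X Y, T.Blow X Y → (P Y ↔ P X)) →
      [∀ X, P X → c₁sq X ≤ 3 * e X,
       ∀ X, P X → Minimal X → c₁sq X ≤ 3 * e X,
       ∀ X, P X → c₁sq X ≠ 3 * e X + 4,
       ∀ X, P X → c₁sq X = 3 * e X → Minimal X].TFAE) ∧
    [∀ X, 1 < T.bp X → c₁sq X ≤ 3 * e X,
     ∀ X, 1 < T.bp X → Minimal X → c₁sq X ≤ 3 * e X,
     ∀ X, 1 < T.bp X → c₁sq X ≠ 3 * e X + 4,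
     ∀ X, 1 < T.bp X → c₁sq X = 3 * e X → Minimal X].TFAE :=
  ⟨fun P hP => hT.tfae P hP, hT.tfae _ fun X Y h => by rw [(hT.blow X Y h).2.1]⟩

end Pool.Agent.Results.MP_872606_gt.OneValueSuffices
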